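import Pool.Agent.Y548.GD.VC

/-!
# Extensions of graphically discrete groups by chains of finite and virtually central factors

Graphical discreteness passes from the quotient of a group by a normal subgroup that has a finite
chain of normal subgroups of the group whose factors are finite, or abelian and centralised by a
subgroup of finite index of the group, to the group, and from subgroups of finite index to
overgroups.  The products of graphically discrete groups with finitely generated virtually
nilpotent groups are a special case.
-/

namespace Pool.Agent.Results.MP_a6ff19_al.VirtuallyCentralChains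

open Pool.Agent.W385.GD

open scoped commutatorElement

/-- Let `G` be a finitely generated group, `H` a subgroup of finite index of `G` and
`1 = N 0 ≤ N 1 ≤ ... ≤ N k` normal subgroups of `H` such that for all `i < k` the factor
`N (i + 1) / N i` is finite, or there is a subgroup `C` of finite index of `H` that contains
`N (i + 1)` and centralises `N (i + 1) / N i`, and `N k` is finitely generated as a normal
subgroup of `H`. If `H / N k` is graphically discrete then `G` is graphically discrete. -/
theorem result : ∀ (G : Type*) [Group G], Group.FG G → ∀ (H : Subgroup G), H.FiniteIndex →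
    ∀ (k : ℕ) (N : ℕ → Subgroup H) [∀ i, (N i).Normal], N 0 = ⊥ →
    (∀ i < k, N i ≤ N (i + 1)) →
    (∀ i < k, (N i).relIndex (N (i + 1)) ≠ 0 ∨
      ∃ C : Subgroup H, C.FiniteIndex ∧ N (i + 1) ≤ C ∧ ⁅N (i + 1), C⁆ ≤ N i) →
    (∃ T : Set H, T.Finite ∧ Subgroup.normalClosure T = N k) →
    GraphicallyDiscrete (H ⧸ N k) → GraphicallyDiscrete G := by
  intro G _ hG H hH k N _ h0 hmono hstep hT h
  obtain ⟨T, hT, hTN⟩ := hT
  have hHfg : Group.FG H := Subgroup.fg_of_index_ne_zero H
  exact Y548.GD.gd_of_finiteIndex hG H hH (Y548.GD.gd_vc_chain k N h0 hmono hstep T hT hTN h)

end Pool.Agent.Results.MP_a6ff19_al.VirtuallyCentralChains
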